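import Mathlib

/-!
# Definitions for the Bridge Theorem (MP_699bc8_an)

`S` is a monoid, `K` a compact abelian group written multiplicatively, and the left action `γ` of
`S` on `K` by continuous endomorphisms is given by the type classes `MulDistribMulAction S K` and
`ContinuousConstSMul S K`, so `γ(s) x = s • x`.  The Pontryagin dual is `PontryaginDual K`, the
group of continuous homomorphisms `K → Circle` (also written multiplicatively).
-/

open MeasureTheory Filter Topology

namespace Pool.Agent.Results.MP_699bc8_an.BridgeTheorem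

/-- `(F_i)` is a left Følner net of the monoid `S`: non-empty finite subsets with
`|s F_i ∖ F_i| / |F_i| → 0` for every `s`. Here `l` is the filter on the index set; for a net
indexed by a directed set, `l = atTop`. -/
structure IsLeftFolner {S ι : Type*} [Monoid S] (l : Filter ι) (F : ι → Finset S) : Prop where
  nonempty : ∀ i, (F i).Nonempty
  tendsto : ∀ s : S, Tendsto (fun i =>
    ((((fun t => s * t) '' (F i : Set S)) \ (F i : Set S)).ncard : ℝ) / (F i).card) l (𝓝 0)

/-- `U` is a finite open cover of `K`. -/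
def IsOpenCover {K : Type*} [TopologicalSpace K] (U : Finset (Set K)) : Prop :=
  (∀ u ∈ U, IsOpen u) ∧ ⋃₀ (U : Set (Set K)) = Set.univ

/-- `N(𝒰)`: the least size of a finite subfamily of `𝒰` that covers `K`. -/
noncomputable def coverNumber {K : Type*} (𝒰 : Set (Set K)) : ℕ :=
  sInf {n | ∃ 𝒱 : Finset (Set K), (𝒱 : Set (Set K)) ⊆ 𝒰 ∧ ⋃₀ (𝒱 : Set (Set K)) = Set.univ ∧
    𝒱.card = n}

/-- `𝒰_F = ⋁_{s ∈ F} γ(s)⁻¹(𝒰)`, where `γ(s) x = s • x`. -/
def joinCover {S K : Type*} [SMul S K] (F : Finset S) (𝒰 : Set (Set K)) : Set (Set K) :=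
  {W | ∃ u : S → Set K, (∀ s ∈ F, u s ∈ 𝒰) ∧ W = ⋂ s ∈ F, (fun x => s • x) ⁻¹' (u s)}

section

variable {S K : Type*} [Monoid S] [CommGroup K] [TopologicalSpace K]
  [MulDistribMulAction S K] [ContinuousConstSMul S K]

/-- The dual action `χ · s = χ ∘ γ(s)`. -/
noncomputable def dualAct (χ : PontryaginDual K) (s : S) : PontryaginDual K :=
  ContinuousMonoidHom.comp (χ : K →ₜ* Circle)
    ⟨MulDistribMulAction.toMonoidHom K s, continuous_const_smul s⟩

@[simp] theorem dualAct_apply (χ : PontryaginDual K) (s : S) (x : K) :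
    dualAct χ s x = χ (s • x) := rfl

/-- `T_F(X) = ∏_{s ∈ F} X · s` (the sumset; the dual group is written multiplicatively). -/
def traj (F : Finset S) (X : Finset (PontryaginDual K)) : Set (PontryaginDual K) :=
  {ψ | ∃ c : S → PontryaginDual K, (∀ s ∈ F, c s ∈ X) ∧ ψ = ∏ s ∈ F, dualAct (c s) s}

/-- `log N(𝒰_F) / |F|` -/
noncomputable def topRate (F : Finset S) (U : Finset (Set K)) : ℝ :=
  Real.log (coverNumber (joinCover F (U : Set (Set K)))) / F.card

/-- `log |T_F(X)| / |F|` -/
noncomputable def algRate (F : Finset S) (X : Finset (PontryaginDual K)) : ℝ :=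
  Real.log ((traj F X).ncard) / F.card

variable {ι : Type*}

variable (K) in
/-- Topological entropy `sup_𝒰 lim_i log N(𝒰_{F_i}) / |F_i|`, with `limsup`. -/
noncomputable def hTopSup (l : Filter ι) (F : ι → Finset S) : EReal :=
  ⨆ (U : Finset (Set K)) (_ : IsOpenCover U), limsup (fun i => (topRate (F i) U : EReal)) l

variable (K) in
/-- Topological entropy `sup_𝒰 lim_i log N(𝒰_{F_i}) / |F_i|`, with `liminf`. -/
noncomputable def hTopInf (l : Filter ι) (F : ι → Finset S) : EReal :=
  ⨆ (U : Finset (Set K)) (_ : IsOpenCover U), liminf (fun i => (topRate (F i) U : EReal)) l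

variable (K) in
/-- Algebraic entropy of the dual action, `sup_X lim_i log |T_{F_i}(X)| / |F_i|`, with `limsup`. -/
noncomputable def hAlgSup (l : Filter ι) (F : ι → Finset S) : EReal :=
  ⨆ (X : Finset (PontryaginDual K)) (_ : X.Nonempty),
    limsup (fun i => (algRate (F i) X : EReal)) l

variable (K) in
/-- Algebraic entropy of the dual action, `sup_X lim_i log |T_{F_i}(X)| / |F_i|`, with `liminf`. -/
noncomputable def hAlgInf (l : Filter ι) (F : ι → Finset S) : EReal :=
  ⨆ (X : Finset (PontryaginDual K)) (_ : X.Nonempty),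
    liminf (fun i => (algRate (F i) X : EReal)) l

end

end Pool.Agent.Results.MP_699bc8_an.BridgeTheorem
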