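import Mathlib
import Pool.Agent.Lib.CompactAbelian.Separation
import Pool.Agent.Lib.CompactAbelian.Parseval
import Pool.Agent.Lib.BridgeTheorem.Defs

/-!
# Bridge Theorem, lower bound

For a finite set `X` of characters and `δ > 0` there is a finite open cover `U` with
`log |T_F(X)| ≤ log N(U_F) + δ |F|` for *every* finite `F`: on a member of `U_F` each element of
`T_F(X)` is close to a combination of few low-degree products, and a dimension count applies.
-/

set_option linter.unusedSectionVars false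

open MeasureTheory Filter Topology
open scoped ENNReal ComplexConjugate Classical Pointwise
open Pool.Agent.Lib.CompactAbelian

namespace Pool.Agent.Results.MP_699bc8_an.BridgeTheorem

section cov

variable {S K : Type*}

theorem coverNumber_le {𝒰 : Set (Set K)} {J : Type*} [Fintype J] (W : J → Set K)
    (hW : ∀ j, W j ∈ 𝒰) (hc : ∀ x, ∃ j, x ∈ W j) : coverNumber 𝒰 ≤ Fintype.card J := by
  refine le_trans (Nat.sInf_le ⟨Finset.univ.image W, ?_, ?_, rfl⟩) Finset.card_image_le
  · intro w hw
    simp only [Finset.coe_image, Finset.coe_univ, Set.image_univ, Set.mem_range] at hw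
    obtain ⟨j, rfl⟩ := hw
    exact hW j
  · ext x
    simp only [Finset.coe_image, Finset.coe_univ, Set.image_univ, Set.sUnion_range, Set.mem_iUnion,
      Set.mem_univ, iff_true]
    exact hc x

theorem exists_subcover {𝒰 : Set (Set K)} (hfin : 𝒰.Finite) (hc : ⋃₀ 𝒰 = Set.univ) :
    ∃ 𝒱 : Finset (Set K), (𝒱 : Set (Set K)) ⊆ 𝒰 ∧ ⋃₀ (𝒱 : Set (Set K)) = Set.univ ∧
      𝒱.card = coverNumber 𝒰 := by
  have hne : {n | ∃ 𝒱 : Finset (Set K), (𝒱 : Set (Set K)) ⊆ 𝒰 ∧ ⋃₀ (𝒱 : Set (Set K)) = Set.univ ∧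
    𝒱.card = n}.Nonempty := ⟨hfin.toFinset.card, hfin.toFinset, by simp, by simpa using hc, rfl⟩
  exact Nat.sInf_mem hne

theorem joinCover_finite [SMul S K] (F : Finset S) (U : Finset (Set K)) :
    (joinCover F (U : Set (Set K))).Finite := by
  apply Set.Finite.subset (Set.finite_range
    (fun g : F → U => ⋂ s : F, (fun x => (s : S) • x) ⁻¹' ((g s : Set K))))
  rintro W ⟨u, hu, rfl⟩
  refine ⟨fun s => ⟨u s, by simpa using hu s s.2⟩, ?_⟩
  ext x
  simp

theorem joinCover_cover [SMul S K] (F : Finset S) (U : Set (Set K)) (hU : ⋃₀ U = Set.univ) :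
    ⋃₀ (joinCover F U) = Set.univ := by
  ext x
  simp only [Set.mem_univ, iff_true]
  have h : ∀ s : S, ∃ u ∈ U, s • x ∈ u := fun s => by
    have : s • x ∈ ⋃₀ U := by rw [hU]; trivial
    simpa using this
  choose u hu hx using h
  exact ⟨_, ⟨u, fun s _ => hu s, rfl⟩, by simpa using fun s _ => hx s⟩

end cov

section dual

variable {S K : Type*} [Monoid S] [CommGroup K] [TopologicalSpace K] [IsTopologicalGroup K]
  [MulDistribMulAction S K] [ContinuousConstSMul S K]

theorem traj_finite_card (F : Finset S) (X : Finset (PontryaginDual K)) :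
    (traj F X).Finite ∧ (traj F X).ncard ≤ X.card ^ F.card := by
  let g : (F → X) → PontryaginDual K := fun c => ∏ s : F, dualAct (c s : PontryaginDual K) (s : S)
  have hsub : traj F X ⊆ Set.range g := by
    rintro ψ ⟨c, hc, rfl⟩
    refine ⟨fun s => ⟨c s, hc s s.2⟩, ?_⟩
    exact Finset.prod_coe_sort F (fun s => dualAct (c s) s)
  have hfin : (Set.range g).Finite := Set.finite_range g
  refine ⟨hfin.subset hsub, ?_⟩
  calc (traj F X).ncard ≤ (Set.range g).ncard := Set.ncard_le_ncard hsub hfin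
    _ ≤ Nat.card (F → X) := by
        rw [← Set.image_univ]
        refine (Set.ncard_image_le Set.finite_univ).trans ?_
        rw [Set.ncard_univ]
    _ = X.card ^ F.card := by simp

end dual

section mono

variable {A B : Type*} [Fintype A] [Fintype B] [DecidableEq A] [DecidableEq B]

/-- weight of an option-valued function: `t` to the number of points where it is defined -/
noncomputable def wt (t : ℝ) (m : A → Option B) : ℝ := ∏ s, (m s).elim 1 (fun _ => t)

/-- compatibility of an option-valued function with a total one -/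
noncomputable def comp (c : A → B) (m : A → Option B) : ℝ :=
  ∏ s, (m s).elim 1 (fun b => if c s = b then 1 else 0)

theorem comp_nonneg (c : A → B) (m : A → Option B) : 0 ≤ comp c m := by
  apply Finset.prod_nonneg
  intro s _
  cases m s with
  | none => simp
  | some b => simp only [Option.elim_some]; split_ifs <;> norm_num

theorem wt_nonneg {t : ℝ} (ht : 0 ≤ t) (m : A → Option B) : 0 ≤ wt t m := by
  apply Finset.prod_nonneg
  intro s _
  cases m s with
  | none => simp
  | some b => simpa using ht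

theorem wt_mul (t u : ℝ) (m : A → Option B) : wt (t * u) m = wt t m * wt u m := by
  rw [wt, wt, wt, ← Finset.prod_mul_distrib]
  refine Finset.prod_congr rfl fun s _ => ?_
  cases m s <;> simp

/-- size of the support -/
noncomputable def sz (m : A → Option B) : ℕ := (Finset.univ.filter (fun s => m s ≠ none)).card

theorem wt_eq_pow (t : ℝ) (m : A → Option B) : wt t m = t ^ sz m := by
  rw [wt, sz, ← Finset.prod_const, Finset.prod_filter]
  refine Finset.prod_congr rfl fun s _ => ?_
  cases m s <;> simp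

theorem sum_wt (t : ℝ) : ∑ m : A → Option B, wt t m = (1 + Fintype.card B * t) ^ Fintype.card A := by
  have h := Finset.prod_univ_sum (fun _ : A => (Finset.univ : Finset (Option B)))
    (fun _ o => o.elim 1 (fun _ => t))
  simp only [Fintype.piFinset_univ, Fintype.sum_option, Option.elim_none, Option.elim_some,
    Finset.sum_const, Finset.card_univ, nsmul_eq_mul, Finset.prod_const] at h
  rw [h]
  rfl

theorem sum_comp_mul (c : A → B) (w : A → B → ℂ) :
    ∑ m : A → Option B, (comp c m : ℂ) * ∏ s, (m s).elim 1 (fun b => w s b) =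
      ∏ s, (1 + w s (c s)) := by
  have h := Finset.prod_univ_sum (fun _ : A => (Finset.univ : Finset (Option B)))
    (fun s o => (o.elim 1 (fun b => if c s = b then 1 else 0) : ℂ) * o.elim 1 (fun b => w s b))
  simp only [Fintype.piFinset_univ, Fintype.sum_option, Option.elim_none, Option.elim_some,
    mul_one, ite_mul, one_mul, zero_mul, Finset.sum_ite_eq, Finset.mem_univ, if_true] at h
  rw [h]
  refine Finset.sum_congr rfl fun m _ => ?_
  rw [Finset.prod_mul_distrib, comp]
  push_cast
  congr 1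
  refine Finset.prod_congr rfl fun s _ => ?_
  cases m s with
  | none => simp
  | some b =>
    simp only [Option.elim_some]
    split_ifs <;> simp

theorem sum_comp_wt (c : A → B) (t : ℝ) :
    ∑ m : A → Option B, comp c m * wt t m = (1 + t) ^ Fintype.card A := by
  have h := sum_comp_mul c (fun _ _ => (t : ℂ))
  apply Complex.ofReal_injective
  push_cast
  simp only [Finset.prod_const, Finset.card_univ] at h
  rw [← h]
  refine Finset.sum_congr rfl fun m _ => ?_
  rw [wt]
  push_cast
  congr 1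
  refine Finset.prod_congr rfl fun s _ => ?_
  cases m s <;> simp

/-- number of option-valued functions of small support -/
theorem card_small_le (k : ℕ) {t : ℝ} (ht : 0 < t) (ht1 : t ≤ 1) :
    ((Finset.univ.filter (fun m : A → Option B => sz m ≤ k)).card : ℝ) ≤
      (1 / t) ^ k * (1 + Fintype.card B * t) ^ Fintype.card A := by
  have h1 : ((Finset.univ.filter (fun m : A → Option B => sz m ≤ k)).card : ℝ) * t ^ k ≤
      (1 + Fintype.card B * t) ^ Fintype.card A := by
    rw [← sum_wt, ← nsmul_eq_mul, ← Finset.sum_const]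
    refine le_trans (Finset.sum_le_sum (g := fun m => wt t m) ?_)
      (Finset.sum_le_sum_of_subset_of_nonneg (Finset.filter_subset _ _)
        (fun m _ _ => wt_nonneg ht.le m))
    intro m hm
    rw [wt_eq_pow]
    exact pow_le_pow_of_le_one ht.le ht1 (Finset.mem_filter.mp hm).2
  rw [one_div, inv_pow, ← div_eq_inv_mul, le_div_iff₀ (by positivity)]
  exact h1

end mono

theorem char_prod_apply {K : Type*} [CommGroup K] [TopologicalSpace K] {J : Type*} (t : Finset J)
    (f : J → PontryaginDual K) (x : K) :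
    (((∏ j ∈ t, f j : PontryaginDual K) x : Circle) : ℂ) = ∏ j ∈ t, ((f j x : Circle) : ℂ) := by
  induction t using Finset.induction_on with
  | empty => simp
  | insert j t hj ih =>
    rw [Finset.prod_insert hj, Finset.prod_insert hj, ← ih]
    rfl

section lower

variable {S K : Type*} [Monoid S] [CommGroup K] [TopologicalSpace K] [IsTopologicalGroup K]
  [CompactSpace K] [T2Space K] [MulDistribMulAction S K] [ContinuousConstSMul S K]

theorem card_le_core [MeasurableSpace K] [BorelSpace K] (μ : Measure K) [μ.IsHaarMeasure]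
    [IsProbabilityMeasure μ] (F : Finset S) (hF : F.Nonempty) (X : Finset (PontryaginDual K))
    (hX : X.Nonempty) (𝒱 : Finset (Set K)) (h𝒱 : ⋃₀ (𝒱 : Set (Set K)) = Set.univ)
    {ε κ lam : ℝ} {r : ℕ} (hr : 0 < r) (hlam : lam = 1 / (4 * X.card)) (hκ : κ = lam ^ r)
    (hε : ε = κ * κ)
    (hosc : ∀ W ∈ 𝒱, ∀ x ∈ W, ∀ y ∈ W, ∀ s ∈ F, ∀ χ ∈ X,
      ‖((χ (s • x) : Circle) : ℂ) - (χ (s • y) : Circle)‖ ≤ ε) :
    (traj F X).ncard ≤
      𝒱.card * (Finset.univ.filter (fun m : F → Option X => sz m ≤ F.card / r)).card := by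
  set M := Finset.univ.filter (fun m : F → Option X => sz m ≤ F.card / r) with hM
  obtain ⟨hTfin, hTcard⟩ := traj_finite_card F X
  set T := hTfin.toFinset with hT
  rw [Set.ncard_eq_toFinset_card _ hTfin]
  by_contra hlt
  push Not at hlt
  have hXc : (1 : ℝ) ≤ X.card := by exact_mod_cast hX.card_pos
  have hlam0 : 0 < lam := by rw [hlam]; positivity
  have hlam1 : lam ≤ 1 := by
    rw [hlam, div_le_one (by positivity)]; linarith
  have hκ0 : 0 < κ := by rw [hκ]; positivity
  have hκ1 : κ ≤ 1 := by rw [hκ]; exact pow_le_one₀ hlam0.le hlam1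
  have hε0 : 0 ≤ ε := by rw [hε]; positivity
  -- choose representations
  have hrep : ∀ ψ : T, ∃ c : F → X, (ψ : PontryaginDual K) =
      ∏ s : F, dualAct (c s : PontryaginDual K) (s : S) := by
    intro ψ
    have h1 : (ψ : PontryaginDual K) ∈ traj F X := hTfin.mem_toFinset.mp ψ.2
    obtain ⟨c, hc, h2⟩ := h1
    refine ⟨fun s => ⟨c s, hc s s.2⟩, ?_⟩
    rw [h2]
    exact (Finset.prod_coe_sort F (fun s => dualAct (c s) s)).symm
  choose c hc using hrep
  -- choose base points
  have hpt : ∀ W : 𝒱, ∃ y : K, (W : Set K).Nonempty → y ∈ (W : Set K) := by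
    intro W
    by_cases h : (W : Set K).Nonempty
    · exact ⟨h.choose, fun _ => h.choose_spec⟩
    · exact ⟨1, fun h' => absurd h' h⟩
  choose pt hpt using hpt
  -- the linear map
  let L : (T → ℂ) →ₗ[ℂ] ((𝒱 × M) → ℂ) :=
    { toFun := fun a j => ∑ ψ : T, a ψ * (((ψ : PontryaginDual K) (pt j.1) : Circle) : ℂ) *
        (comp (c ψ) (j.2 : F → Option X) : ℂ)
      map_add' := fun a b => by
        ext j
        simp only [Pi.add_apply, add_mul, Finset.sum_add_distrib]
      map_smul' := fun z a => by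
        ext j
        simp only [Pi.smul_apply, smul_eq_mul, RingHom.id_apply, Finset.mul_sum, mul_assoc] }
  have hker : LinearMap.ker L ≠ ⊥ := by
    apply LinearMap.ker_ne_bot_of_finrank_lt
    rw [Module.finrank_fintype_fun_eq_card, Module.finrank_fintype_fun_eq_card]
    simpa using hlt
  obtain ⟨a, haL, ha0⟩ := (Submodule.ne_bot_iff _).mp hker
  rw [LinearMap.mem_ker] at haL
  -- pointwise bound
  have hbound : ∀ x, ‖∑ ψ : T, a ψ * (((ψ : PontryaginDual K) x : Circle) : ℂ)‖ ≤
      (∑ ψ : T, ‖a ψ‖) * (lam ^ F.card * (1 + κ) ^ F.card) := by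
    intro x
    obtain ⟨W, hW, hxW⟩ : ∃ W ∈ 𝒱, x ∈ W := by
      have : x ∈ ⋃₀ (𝒱 : Set (Set K)) := by rw [h𝒱]; trivial
      simpa using this
    let W' : 𝒱 := ⟨W, hW⟩
    have hy : pt W' ∈ W := hpt W' ⟨x, hxW⟩
    set y := pt W' with hy_def
    let z : F → X → ℂ := fun s χ =>
      (((χ : PontryaginDual K) ((s : S) • x) : Circle) : ℂ) /
        (((χ : PontryaginDual K) ((s : S) • y) : Circle) : ℂ) - 1
    have hz : ∀ s χ, ‖z s χ‖ ≤ ε := by
      intro s χ
      have h1 := hosc W hW x hxW y hy s s.2 χ χ.2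
      have h2 : z s χ = ((((χ : PontryaginDual K) ((s : S) • x) : Circle) : ℂ) -
        (((χ : PontryaginDual K) ((s : S) • y) : Circle) : ℂ)) /
        (((χ : PontryaginDual K) ((s : S) • y) : Circle) : ℂ) := by
        simp only [z]
        rw [sub_div, div_self (Circle.coe_ne_zero _)]
      rw [h2, norm_div, Circle.norm_coe, div_one]
      exact h1
    let w : (F → Option X) → ℂ := fun m => ∏ s, (m s).elim 1 (fun b => z s b)
    have hw : ∀ m, ‖w m‖ ≤ wt ε m := by
      intro m
      simp only [w, wt]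
      rw [norm_prod]
      apply Finset.prod_le_prod
      · intro s _; exact norm_nonneg _
      · intro s _
        cases m s with
        | none => simp
        | some b => simpa using hz s b
    have hψ : ∀ ψ : T, (((ψ : PontryaginDual K) x : Circle) : ℂ) =
        (((ψ : PontryaginDual K) y : Circle) : ℂ) *
          ∑ m : F → Option X, (comp (c ψ) m : ℂ) * w m := by
      intro ψ
      have h1 : ∀ x : K, (((ψ : PontryaginDual K) x : Circle) : ℂ) =
          ∏ s : F, ((((c ψ s : PontryaginDual K)) ((s : S) • x) : Circle) : ℂ) := by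
        intro x
        rw [hc ψ, char_prod_apply]
        rfl
      have h2 := sum_comp_mul (c ψ) z
      change ∑ m : F → Option X, (comp (c ψ) m : ℂ) * w m = _ at h2
      rw [h2, h1 x, h1 y, ← Finset.prod_mul_distrib]
      refine Finset.prod_congr rfl fun s _ => ?_
      simp only [z]
      rw [add_sub_cancel, mul_div_cancel₀ _ (Circle.coe_ne_zero _)]
    have hexp : ∑ ψ : T, a ψ * (((ψ : PontryaginDual K) x : Circle) : ℂ) =
        ∑ m : F → Option X, w m * ∑ ψ : T, a ψ * (((ψ : PontryaginDual K) y : Circle) : ℂ) *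
          (comp (c ψ) m : ℂ) := by
      simp_rw [hψ, Finset.mul_sum]
      rw [Finset.sum_comm]
      refine Finset.sum_congr rfl fun m _ => Finset.sum_congr rfl fun ψ _ => ?_
      ring
    rw [hexp, ← Finset.sum_filter_add_sum_filter_not Finset.univ
      (fun m : F → Option X => sz m ≤ F.card / r)]
    have hzero : ∑ m ∈ Finset.univ.filter (fun m : F → Option X => sz m ≤ F.card / r),
        w m * ∑ ψ : T, a ψ * (((ψ : PontryaginDual K) y : Circle) : ℂ) *
          (comp (c ψ) m : ℂ) = 0 := by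
      apply Finset.sum_eq_zero
      intro m hm
      have h1 := congrFun haL (W', ⟨m, hm⟩)
      have h2 : ∑ ψ : T, a ψ * (((ψ : PontryaginDual K) y : Circle) : ℂ) *
          (comp (c ψ) m : ℂ) = 0 := h1
      rw [h2, mul_zero]
    rw [hzero, zero_add]
    calc ‖∑ m ∈ Finset.univ.filter (fun m : F → Option X => ¬ sz m ≤ F.card / r),
        w m * ∑ ψ : T, a ψ * (((ψ : PontryaginDual K) y : Circle) : ℂ) * (comp (c ψ) m : ℂ)‖
        ≤ ∑ m ∈ Finset.univ.filter (fun m : F → Option X => ¬ sz m ≤ F.card / r),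
          (lam ^ F.card * wt κ m) * ∑ ψ : T, ‖a ψ‖ * comp (c ψ) m := by
          refine (norm_sum_le _ _).trans (Finset.sum_le_sum fun m hm => ?_)
          rw [norm_mul]
          have hm' : ¬ sz m ≤ F.card / r := (Finset.mem_filter.mp hm).2
          push Not at hm'
          have h3 : F.card ≤ r * sz m := by
            have := Nat.lt_mul_div_succ F.card hr
            calc F.card ≤ r * (F.card / r + 1) := this.le
              _ ≤ r * sz m := Nat.mul_le_mul_left _ hm'
          have h4 : wt ε m ≤ lam ^ F.card * wt κ m := by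
            rw [hε, wt_mul]
            apply mul_le_mul_of_nonneg_right _ (wt_nonneg hκ0.le m)
            rw [wt_eq_pow, hκ, ← pow_mul]
            exact pow_le_pow_of_le_one hlam0.le hlam1 h3
          have h5 : ‖∑ ψ : T, a ψ * (((ψ : PontryaginDual K) y : Circle) : ℂ) *
              (comp (c ψ) m : ℂ)‖ ≤ ∑ ψ : T, ‖a ψ‖ * comp (c ψ) m := by
            refine (norm_sum_le _ _).trans (Finset.sum_le_sum fun ψ _ => ?_)
            rw [norm_mul, norm_mul, Circle.norm_coe, mul_one, Complex.norm_real,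
              Real.norm_of_nonneg (comp_nonneg _ _)]
          exact mul_le_mul ((hw m).trans h4) h5 (norm_nonneg _) (by
            have := wt_nonneg hκ0.le m
            positivity)
      _ ≤ ∑ m : F → Option X, (lam ^ F.card * wt κ m) * ∑ ψ : T, ‖a ψ‖ * comp (c ψ) m := by
          apply Finset.sum_le_sum_of_subset_of_nonneg (Finset.filter_subset _ _)
          intro m _ _
          have h1 := wt_nonneg hκ0.le m
          have h2 : 0 ≤ ∑ ψ : T, ‖a ψ‖ * comp (c ψ) m :=
            Finset.sum_nonneg fun ψ _ => mul_nonneg (norm_nonneg _) (comp_nonneg _ _)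
          positivity
      _ = (∑ ψ : T, ‖a ψ‖) * (lam ^ F.card * (1 + κ) ^ F.card) := by
          simp_rw [Finset.mul_sum]
          rw [Finset.sum_comm, Finset.sum_mul]
          refine Finset.sum_congr rfl fun ψ _ => ?_
          have h1 := sum_comp_wt (c ψ) κ
          rw [Fintype.card_coe] at h1
          rw [← h1, Finset.mul_sum, Finset.mul_sum]
          refine Finset.sum_congr rfl fun m _ => ?_
          ring
  set f : K → ℂ := fun x => ∑ ψ : T, a ψ * (((ψ : PontryaginDual K) x : Circle) : ℂ) with hf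
  have hpars : ∫ x, ‖f x‖ ^ 2 ∂μ = ∑ ψ : T, ‖a ψ‖ ^ 2 :=
    integral_normSq_trigPoly μ (fun ψ : T => (ψ : PontryaginDual K)) Subtype.val_injective a
  have hApos : 0 < ∑ ψ : T, ‖a ψ‖ ^ 2 := by
    obtain ⟨ψ, hψ⟩ := Function.ne_iff.mp ha0
    have h1 : 0 < ‖a ψ‖ ^ 2 := by
      have : 0 < ‖a ψ‖ := norm_pos_iff.mpr hψ
      positivity
    exact lt_of_lt_of_le h1 (Finset.single_le_sum (f := fun ψ => ‖a ψ‖ ^ 2)
      (fun ψ _ => by positivity) (Finset.mem_univ ψ))
  have hAle : ∑ ψ : T, ‖a ψ‖ ^ 2 ≤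
      ((∑ ψ : T, ‖a ψ‖) * (lam ^ F.card * (1 + κ) ^ F.card)) ^ 2 := by
    rw [← hpars]
    calc ∫ x, ‖f x‖ ^ 2 ∂μ ≤ ∫ _, ((∑ ψ : T, ‖a ψ‖) * (lam ^ F.card * (1 + κ) ^ F.card)) ^ 2 ∂μ := by
          apply integral_mono_of_nonneg
          · exact Eventually.of_forall fun x => by positivity
          · exact integrable_const _
          · exact Eventually.of_forall fun x => by
              have := hbound x
              exact pow_le_pow_left₀ (norm_nonneg _) this 2
      _ = _ := by simp
  have hCS : (∑ ψ : T, ‖a ψ‖) ^ 2 ≤ (T.card : ℝ) * ∑ ψ : T, ‖a ψ‖ ^ 2 := by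
    have h1 := sq_sum_le_card_mul_sum_sq (s := (Finset.univ : Finset T)) (f := fun ψ => ‖a ψ‖)
    simpa using h1
  have hTq : (T.card : ℝ) ≤ (X.card : ℝ) ^ F.card := by
    rw [Set.ncard_eq_toFinset_card _ hTfin] at hTcard
    exact_mod_cast hTcard
  set q : ℝ := (X.card : ℝ) with hq
  have hn : 1 ≤ F.card := hF.card_pos
  have hB : (lam ^ F.card * (1 + κ) ^ F.card) ^ 2 ≤ ((4 * lam ^ 2)) ^ F.card := by
    rw [← mul_pow, ← pow_mul, mul_comm F.card 2, pow_mul]
    apply pow_le_pow_left₀ (by positivity)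
    have h8 : lam * (1 + κ) ≤ 2 * lam := by nlinarith
    calc (lam * (1 + κ)) ^ 2 ≤ (2 * lam) ^ 2 := pow_le_pow_left₀ (by positivity) h8 2
      _ = 4 * lam ^ 2 := by ring
  have h5 : ∑ ψ : T, ‖a ψ‖ ^ 2 ≤ (q ^ F.card * (4 * lam ^ 2) ^ F.card) * ∑ ψ : T, ‖a ψ‖ ^ 2 := by
    refine hAle.trans ?_
    rw [mul_pow]
    calc (∑ ψ : T, ‖a ψ‖) ^ 2 * (lam ^ F.card * (1 + κ) ^ F.card) ^ 2
        ≤ ((T.card : ℝ) * ∑ ψ : T, ‖a ψ‖ ^ 2) * (4 * lam ^ 2) ^ F.card := by
          gcongr
      _ ≤ (q ^ F.card * ∑ ψ : T, ‖a ψ‖ ^ 2) * (4 * lam ^ 2) ^ F.card := by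
          gcongr
      _ = _ := by ring
  have h6 : q ^ F.card * (4 * lam ^ 2) ^ F.card < 1 := by
    rw [← mul_pow]
    apply pow_lt_one₀ (by positivity) _ (by omega)
    rw [hlam]
    have : q * (4 * (1 / (4 * q)) ^ 2) = 1 / (4 * q) := by field_simp
    rw [this, div_lt_one (by positivity)]
    linarith
  have h7 : (q ^ F.card * (4 * lam ^ 2) ^ F.card) * ∑ ψ : T, ‖a ψ‖ ^ 2 < 1 * ∑ ψ : T, ‖a ψ‖ ^ 2 :=
    mul_lt_mul_of_pos_right h6 hApos
  linarith

end lower

section lower2

variable {S K : Type*} [Monoid S] [CommGroup K] [TopologicalSpace K] [IsTopologicalGroup K]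
  [CompactSpace K] [T2Space K] [MulDistribMulAction S K] [ContinuousConstSMul S K]

theorem exists_fine_cover (X : Finset (PontryaginDual K)) {ε : ℝ} (hε : 0 < ε) :
    ∃ U : Finset (Set K), (∀ u ∈ U, IsOpen u) ∧ ⋃₀ (U : Set (Set K)) = Set.univ ∧
      ∀ u ∈ U, ∀ x ∈ u, ∀ y ∈ u, ∀ χ ∈ X, ‖((χ x : Circle) : ℂ) - (χ y : Circle)‖ ≤ ε := by
  let O : K → Set K := fun x => ⋂ χ ∈ X, {y | ‖((χ y : Circle) : ℂ) - (χ x : Circle)‖ < ε / 2}
  have hO : ∀ x, IsOpen (O x) := by
    intro x
    apply isOpen_biInter_finset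
    intro χ _
    exact isOpen_lt ((continuous_char χ).sub continuous_const).norm continuous_const
  have hxO : ∀ x, x ∈ O x := by
    intro x
    simp only [O, Set.mem_iInter]
    intro χ _
    change ‖((χ x : Circle) : ℂ) - (χ x : Circle)‖ < ε / 2
    rw [sub_self, norm_zero]; positivity
  obtain ⟨t, ht⟩ := isCompact_univ.elim_finite_subcover O hO
    (fun x _ => Set.mem_iUnion.mpr ⟨x, hxO x⟩)
  refine ⟨t.image O, ?_, ?_, ?_⟩
  · intro u hu
    obtain ⟨x, _, rfl⟩ := Finset.mem_image.mp hu
    exact hO x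
  · ext x
    simp only [Set.mem_univ, iff_true]
    have := ht (Set.mem_univ x)
    simp only [Set.mem_iUnion] at this
    obtain ⟨y, hy, hxy⟩ := this
    exact ⟨O y, by simpa using ⟨y, hy, rfl⟩, hxy⟩
  · intro u hu x hx y hy χ hχ
    obtain ⟨z, _, rfl⟩ := Finset.mem_image.mp hu
    simp only [O, Set.mem_iInter] at hx hy
    have h1 : ‖((χ x : Circle) : ℂ) - (χ z : Circle)‖ < ε / 2 := hx χ hχ
    have h2 : ‖((χ y : Circle) : ℂ) - (χ z : Circle)‖ < ε / 2 := hy χ hχ
    calc ‖((χ x : Circle) : ℂ) - (χ y : Circle)‖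
        = ‖(((χ x : Circle) : ℂ) - (χ z : Circle)) - (((χ y : Circle) : ℂ) - (χ z : Circle))‖ := by
          congr 1; ring
      _ ≤ ε / 2 + ε / 2 := (norm_sub_le _ _).trans (add_le_add h1.le h2.le)
      _ = ε := by ring

theorem haar_prob [MeasurableSpace K] [BorelSpace K] :
    IsProbabilityMeasure (Measure.haarMeasure (⊤ : TopologicalSpace.PositiveCompacts K)) := by
  refine ⟨?_⟩
  have := Measure.haarMeasure_self (K₀ := (⊤ : TopologicalSpace.PositiveCompacts K))
  simpa using this

/-- The lower bound: topological entropy dominates algebraic entropy, for each finite `F`. -/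
theorem lower_bound (X : Finset (PontryaginDual K)) (hX : X.Nonempty) {δ : ℝ} (hδ : 0 < δ) :
    ∃ U : Finset (Set K), (∀ u ∈ U, IsOpen u) ∧ ⋃₀ (U : Set (Set K)) = Set.univ ∧
      ∀ F : Finset S, F.Nonempty →
        Real.log ((traj F X).ncard) ≤
          Real.log (coverNumber (joinCover F (U : Set (Set K)))) + δ * F.card := by
  let _ : MeasurableSpace K := borel K
  have : BorelSpace K := ⟨rfl⟩
  let μ : Measure K := Measure.haarMeasure ⊤
  have : IsProbabilityMeasure μ := haar_prob
  have hq : (1 : ℝ) ≤ X.card := by exact_mod_cast hX.card_pos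
  set q : ℝ := (X.card : ℝ) with hq_def
  set t : ℝ := min 1 (δ / (2 * q)) with ht
  have ht0 : 0 < t := by positivity
  have ht1 : t ≤ 1 := min_le_left _ _
  have hqt : q * t ≤ δ / 2 := by
    calc q * t ≤ q * (δ / (2 * q)) := by gcongr; exact min_le_right _ _
      _ = δ / 2 := by field_simp
  obtain ⟨r, hr⟩ := exists_nat_gt (max 0 (2 * Real.log (1 / t) / δ))
  have hr0 : 0 < r := by
    have : (0 : ℝ) < r := lt_of_le_of_lt (le_max_left _ _) hr
    exact_mod_cast this
  have hr1 : Real.log (1 / t) / r ≤ δ / 2 := by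
    have h1 : 2 * Real.log (1 / t) / δ < r := lt_of_le_of_lt (le_max_right _ _) hr
    rw [div_lt_iff₀ hδ] at h1
    rw [div_le_iff₀ (by exact_mod_cast hr0)]
    linarith
  set lam : ℝ := 1 / (4 * q) with hlam
  set κ : ℝ := lam ^ r with hκ
  have hκ0 : 0 < κ := by positivity
  obtain ⟨U, hUo, hUc, hUosc⟩ := exists_fine_cover X (mul_pos hκ0 hκ0)
  refine ⟨U, hUo, hUc, fun F hF => ?_⟩
  obtain ⟨𝒱, h𝒱s, h𝒱c, h𝒱n⟩ := exists_subcover (joinCover_finite F U)
    (joinCover_cover F (U : Set (Set K)) hUc)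
  have hcore := card_le_core μ F hF X hX 𝒱 h𝒱c hr0 hlam hκ rfl (by
    intro W hW x hx y hy s hs χ hχ
    obtain ⟨u, hu, rfl⟩ := h𝒱s hW
    simp only [Set.mem_iInter, Set.mem_preimage] at hx hy
    exact hUosc (u s) (by simpa using hu s hs) _ (hx s hs) _ (hy s hs) χ hχ)
  have hM := card_small_le (A := F) (B := X) (F.card / r) ht0 ht1
  rw [Fintype.card_coe, Fintype.card_coe] at hM
  set m := (Finset.univ.filter (fun m : F → Option X => sz m ≤ F.card / r)).card with hm
  -- nonemptiness
  have hTpos : 0 < (traj F X).ncard := by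
    rw [Set.ncard_pos (traj_finite_card F X).1]
    obtain ⟨χ, hχ⟩ := hX
    exact ⟨_, fun _ => χ, fun _ _ => hχ, rfl⟩
  have hprod : 0 < 𝒱.card * m := lt_of_lt_of_le hTpos hcore
  have hVpos : 0 < 𝒱.card := Nat.pos_of_mul_pos_right hprod
  have hmpos : 0 < m := Nat.pos_of_mul_pos_left hprod
  have hV0 : (0 : ℝ) < 𝒱.card := by exact_mod_cast hVpos
  have hm0 : (0 : ℝ) < m := by exact_mod_cast hmpos
  rw [← h𝒱n]
  have h1 : Real.log ((traj F X).ncard) ≤ Real.log 𝒱.card + Real.log m := by
    rw [← Real.log_mul hV0.ne' hm0.ne']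
    apply Real.log_le_log (by exact_mod_cast hTpos)
    exact_mod_cast hcore
  have h2 : Real.log m ≤ (F.card / r : ℕ) * Real.log (1 / t) + F.card * Real.log (1 + q * t) := by
    rw [← Real.log_pow, ← Real.log_pow, ← Real.log_mul (by positivity) (by positivity)]
    exact Real.log_le_log hm0 hM
  have h3 : Real.log (1 + q * t) ≤ δ / 2 := by
    have := Real.log_le_sub_one_of_pos (show (0 : ℝ) < 1 + q * t by positivity)
    linarith
  have h4 : ((F.card / r : ℕ) : ℝ) * Real.log (1 / t) ≤ F.card * (δ / 2) := by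
    have hlog : 0 ≤ Real.log (1 / t) := Real.log_nonneg (by rw [le_div_iff₀ ht0]; linarith)
    calc ((F.card / r : ℕ) : ℝ) * Real.log (1 / t) ≤ ((F.card : ℝ) / r) * Real.log (1 / t) := by
          gcongr
          exact Nat.cast_div_le
      _ = F.card * (Real.log (1 / t) / r) := by ring
      _ ≤ F.card * (δ / 2) := by gcongr
  have h5 : (F.card : ℝ) * Real.log (1 + q * t) ≤ F.card * (δ / 2) := by gcongr
  linarith

end lower2

end Pool.Agent.Results.MP_699bc8_an.BridgeTheorem
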