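import Mathlib
import Pool.Agent.Lib.BridgeTheorem.Lower

/-!
# Bridge Theorem, upper bound

For a finite open cover `U` and `δ > 0` there is a finite set `X` of characters with
`log N(U_F) ≤ log 2 + log |T_F(X)| + δ |F|` for *every* finite `F`: a trigonometric polynomial
with non-negative coefficients, Parseval, and a covering argument with Haar measure.
-/

set_option linter.unusedSectionVars false

open MeasureTheory Filter Topology
open scoped ENNReal ComplexConjugate Classical Pointwise
open Pool.Agent.Lib.CompactAbelian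

namespace Pool.Agent.Results.MP_699bc8_an.BridgeTheorem

section upper1

variable {K : Type*} [CommGroup K] [TopologicalSpace K] [IsTopologicalGroup K]
  [CompactSpace K] [T2Space K]

/-- A neighbourhood `V` of `1` such that each `x V V⁻¹` lies in a member of the cover. -/
theorem exists_small_nhd (U : Finset (Set K)) (hUo : ∀ u ∈ U, IsOpen u)
    (hUc : ⋃₀ (U : Set (Set K)) = Set.univ) :
    ∃ V : Set K, IsOpen V ∧ (1 : K) ∈ V ∧
      ∀ x : K, ∃ u ∈ U, ∀ v ∈ V, ∀ w ∈ V, x * v * w⁻¹ ∈ u := by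
  have h1 : ∀ x : K, ∃ N : Set K, IsOpen N ∧ (1 : K) ∈ N ∧ ∃ u ∈ U, ∀ a ∈ N, ∀ b ∈ N, ∀ c ∈ N,
      x * a * b * c⁻¹ ∈ u := by
    intro x
    obtain ⟨u, hu, hxu⟩ : ∃ u ∈ U, x ∈ u := by
      have : x ∈ ⋃₀ (U : Set (Set K)) := by rw [hUc]; trivial
      simpa using this
    have hcont : Continuous (fun p : K × K × K => x * p.1 * p.2.1 * p.2.2⁻¹) := by fun_prop
    have hnhd : (fun p : K × K × K => x * p.1 * p.2.1 * p.2.2⁻¹) ⁻¹' u ∈ 𝓝 ((1, 1, 1) : K × K × K) := by
      apply hcont.continuousAt.preimage_mem_nhds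
      apply (hUo u hu).mem_nhds
      simpa using hxu
    rw [nhds_prod_eq, nhds_prod_eq, mem_prod_iff] at hnhd
    obtain ⟨N1, hN1, N23, hN23, hsub⟩ := hnhd
    rw [mem_prod_iff] at hN23
    obtain ⟨N2, hN2, N3, hN3, hsub2⟩ := hN23
    obtain ⟨N, hN, hNo, hN1'⟩ := mem_nhds_iff.mp (inter_mem hN1 (inter_mem hN2 hN3))
    refine ⟨N, hNo, hN1', u, hu, fun a ha b hb c hc => ?_⟩
    have : (a, b, c) ∈ (fun p : K × K × K => x * p.1 * p.2.1 * p.2.2⁻¹) ⁻¹' u := by
      apply hsub
      refine ⟨(hN ha).1, hsub2 ⟨(hN hb).2.1, (hN hc).2.2⟩⟩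
    exact this
  choose N hNo hN1 u hu hN using h1
  obtain ⟨t, ht⟩ := isCompact_univ.elim_finite_subcover (fun x : K => x • N x)
    (fun x => (hNo x).smul x)
    (fun x _ => Set.mem_iUnion.mpr ⟨x, ⟨1, hN1 x, by simp⟩⟩)
  refine ⟨⋂ x ∈ t, N x, isOpen_biInter_finset (fun x _ => hNo x), ?_, ?_⟩
  · simp only [Set.mem_iInter]
    exact fun x _ => hN1 x
  · intro x
    have hx := ht (Set.mem_univ x)
    simp only [Set.mem_iUnion] at hx
    obtain ⟨y, hy, a, ha, hax⟩ := hx
    refine ⟨u y, hu y, fun v hv w hw => ?_⟩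
    simp only [Set.mem_iInter] at hv hw
    have := hN y a ha v (hv y hy) w (hw y hy)
    have hax' : y * a = x := hax
    rwa [hax'] at this

theorem norm_half_le (z : Circle) : ‖(1 + (z : ℂ)) / 2‖ ≤ 1 := by
  rw [norm_div]
  have : ‖1 + (z : ℂ)‖ ≤ 2 := by
    calc ‖1 + (z : ℂ)‖ ≤ ‖(1 : ℂ)‖ + ‖(z : ℂ)‖ := norm_add_le _ _
      _ = 2 := by rw [Circle.norm_coe, norm_one]; norm_num
  rw [Complex.norm_ofNat]
  linarith

theorem norm_half_lt {z : Circle} (hz : z ≠ 1) : ‖(1 + (z : ℂ)) / 2‖ ^ 2 < 1 := by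
  have hnorm : Complex.normSq (z : ℂ) = 1 := Circle.normSq_coe z
  rw [Complex.normSq_apply] at hnorm
  have hre : (z : ℂ).re < 1 := by
    by_contra h
    push Not at h
    have h1 : (z : ℂ).re = 1 := by nlinarith [mul_self_nonneg (z : ℂ).im, mul_self_nonneg (z : ℂ).re]
    have h2 : (z : ℂ).im = 0 := by
      have : (z : ℂ).im * (z : ℂ).im = 0 := by nlinarith
      simpa using this
    apply hz
    ext
    apply Complex.ext
    · simpa using h1
    · simpa using h2
  rw [← Complex.normSq_eq_norm_sq, Complex.normSq_apply]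
  have e1 : ((1 + (z : ℂ)) / 2).re = (1 + (z : ℂ).re) / 2 := by
    simp
  have e2 : ((1 + (z : ℂ)) / 2).im = ((z : ℂ).im) / 2 := by
    simp
  rw [e1, e2]
  nlinarith

/-- Finitely many characters detect the complement of `V`. -/
theorem exists_test {V : Set K} (hV : IsOpen V) (h1 : (1 : K) ∈ V) :
    ∃ (Y : Finset (PontryaginDual K)) (θ : ℝ), 0 < θ ∧ θ < 1 ∧
      ∀ x, x ∉ V → ∃ χ ∈ Y, ‖(1 + ((χ x : Circle) : ℂ)) / 2‖ ^ 2 ≤ θ := by
  let O : PontryaginDual K × ℕ → Set K := fun p =>
    {x | ‖(1 + ((p.1 x : Circle) : ℂ)) / 2‖ ^ 2 < 1 - 1 / ((p.2 : ℝ) + 2)}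
  have hO : ∀ p, IsOpen (O p) := by
    intro p
    refine isOpen_lt ?_ continuous_const
    have := continuous_char p.1
    fun_prop
  obtain ⟨t, ht⟩ := (hV.isClosed_compl.isCompact).elim_finite_subcover O hO (by
    intro x hx
    have hx1 : x ≠ 1 := fun h => hx (h ▸ h1)
    obtain ⟨χ, hχ⟩ := exists_char_ne_one hx1
    have h2 := norm_half_lt hχ
    obtain ⟨n, hn⟩ := exists_nat_one_div_lt (sub_pos.mpr h2)
    refine Set.mem_iUnion.mpr ⟨(χ, n), ?_⟩
    change ‖(1 + ((χ x : Circle) : ℂ)) / 2‖ ^ 2 < 1 - 1 / ((n : ℝ) + 2)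
    have h3 : 1 / ((n : ℝ) + 2) ≤ 1 / ((n : ℝ) + 1) := by
      apply one_div_le_one_div_of_le <;> linarith
    linarith)
  refine ⟨t.image Prod.fst, 1 - 1 / (((t.sup Prod.snd : ℕ) : ℝ) + 2), ?_, ?_, ?_⟩
  · have : 1 / (((t.sup Prod.snd : ℕ) : ℝ) + 2) < 1 := by
      rw [div_lt_one (by positivity)]
      have : (0 : ℝ) ≤ ((t.sup Prod.snd : ℕ) : ℝ) := Nat.cast_nonneg _
      linarith
    linarith
  · have : 0 < 1 / (((t.sup Prod.snd : ℕ) : ℝ) + 2) := by positivity
    linarith
  · intro x hx
    have := ht hx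
    simp only [Set.mem_iUnion] at this
    obtain ⟨p, hp, hpx⟩ := this
    refine ⟨p.1, Finset.mem_image_of_mem _ hp, ?_⟩
    have h2 : ‖(1 + ((p.1 x : Circle) : ℂ)) / 2‖ ^ 2 < 1 - 1 / ((p.2 : ℝ) + 2) := hpx
    have h3 : p.2 ≤ t.sup Prod.snd := Finset.le_sup (f := Prod.snd) hp
    have h4 : 1 / (((t.sup Prod.snd : ℕ) : ℝ) + 2) ≤ 1 / ((p.2 : ℝ) + 2) := by
      apply one_div_le_one_div_of_le (by positivity)
      have : (p.2 : ℝ) ≤ ((t.sup Prod.snd : ℕ) : ℝ) := by exact_mod_cast h3
      linarith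
    linarith

/-- Exponential beats polynomial. -/
theorem exists_power {θ : ℝ} (h0 : 0 < θ) (h1 : θ < 1) (y r : ℕ) :
    ∃ M : ℕ, θ ^ M * (2 * ((M : ℝ) + 1) ^ y) ^ r < 1 := by
  have h := tendsto_pow_const_mul_const_pow_of_abs_lt_one (y * r) (r := θ)
    (by rw [abs_of_pos h0]; exact h1)
  have h2 := (h.comp (tendsto_add_atTop_nat 1)).const_mul (2 ^ r / θ)
  rw [mul_zero] at h2
  obtain ⟨M, hM⟩ := (h2.eventually (gt_mem_nhds zero_lt_one)).exists
  refine ⟨M, ?_⟩
  simp only [Function.comp_apply, Nat.cast_add, Nat.cast_one] at hM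
  calc θ ^ M * (2 * ((M : ℝ) + 1) ^ y) ^ r
      = 2 ^ r / θ * (((M : ℝ) + 1) ^ (y * r) * θ ^ (M + 1)) := by
        rw [mul_pow, ← pow_mul, pow_succ]; field_simp
    _ < 1 := hM

end upper1

section upper2

variable {S K : Type*} [Monoid S] [CommGroup K] [TopologicalSpace K] [IsTopologicalGroup K]
  [CompactSpace K] [T2Space K] [MulDistribMulAction S K] [ContinuousConstSMul S K]

theorem integral_normSq_ge [MeasurableSpace K] [BorelSpace K] (μ : Measure K) [μ.IsHaarMeasure]
    [IsProbabilityMeasure μ] (T : Finset (PontryaginDual K)) {J : Type*} [Fintype J] [Nonempty J]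
    (v : J → PontryaginDual K) (hv : ∀ j, v j ∈ T) (c : J → ℝ) (hc : ∑ j, c j = 1) :
    1 / (T.card : ℝ) ≤ ∫ x, ‖∑ j, (c j : ℂ) * ((v j x : Circle) : ℂ)‖ ^ 2 ∂μ := by
  let b : T → ℝ := fun ψ => ∑ j ∈ Finset.univ.filter (fun j => v j = ψ), c j
  have h1 : ∀ x, ∑ j, (c j : ℂ) * ((v j x : Circle) : ℂ) =
      ∑ ψ : T, (b ψ : ℂ) * (((ψ : PontryaginDual K) x : Circle) : ℂ) := by
    intro x
    have h2 : ∀ j ∈ (Finset.univ : Finset J), (⟨v j, hv j⟩ : T) ∈ (Finset.univ : Finset T) :=
      fun j _ => Finset.mem_univ _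
    rw [← Finset.sum_fiberwise_of_maps_to h2]
    refine Finset.sum_congr rfl fun ψ _ => ?_
    simp only [b]
    push_cast
    rw [Finset.sum_mul]
    have h3 : (Finset.univ.filter (fun j : J => (⟨v j, hv j⟩ : T) = ψ)) =
        Finset.univ.filter (fun j : J => v j = ψ) := by
      ext j
      simp only [Finset.mem_filter, Finset.mem_univ, true_and, Subtype.ext_iff]
    rw [h3]
    refine Finset.sum_congr rfl fun j hj => ?_
    rw [(Finset.mem_filter.mp hj).2]
  simp_rw [h1]
  rw [integral_normSq_trigPoly μ (fun ψ : T => (ψ : PontryaginDual K)) Subtype.val_injective]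
  have hsum : ∑ ψ : T, b ψ = 1 := by
    rw [← hc]
    have h2 : ∀ j ∈ (Finset.univ : Finset J), (⟨v j, hv j⟩ : T) ∈ (Finset.univ : Finset T) :=
      fun j _ => Finset.mem_univ _
    rw [← Finset.sum_fiberwise_of_maps_to h2]
    refine Finset.sum_congr rfl fun ψ _ => ?_
    simp only [b]
    refine Finset.sum_congr ?_ fun _ _ => rfl
    ext j
    simp only [Finset.mem_filter, Finset.mem_univ, true_and, Subtype.ext_iff]
  have hT : 0 < (T.card : ℝ) := by
    obtain ⟨j⟩ := ‹Nonempty J›
    exact_mod_cast Finset.card_pos.mpr ⟨v j, hv j⟩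
  have hCS := sq_sum_le_card_mul_sum_sq (s := (Finset.univ : Finset T)) (f := b)
  rw [hsum, one_pow] at hCS
  rw [div_le_iff₀ hT, mul_comm]
  simpa using hCS

theorem dualAct_mul (χ ψ : PontryaginDual K) (s : S) :
    dualAct (χ * ψ) s = dualAct χ s * dualAct ψ s := rfl

theorem dualAct_one (s : S) : dualAct (1 : PontryaginDual K) s = 1 := rfl

/-- `dualAct` as a homomorphism in the character. -/
noncomputable def dualHom (s : S) : PontryaginDual K →* PontryaginDual K where
  toFun χ := dualAct χ s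
  map_one' := rfl
  map_mul' _ _ := rfl

/-- the finite set of characters used for the upper bound -/
noncomputable def powSet (Y : Finset (PontryaginDual K)) (M : ℕ) : Finset (PontryaginDual K) :=
  Finset.univ.image (fun k : Y → Fin (M + 1) => ∏ χ : Y, (χ : PontryaginDual K) ^ (k χ : ℕ))

theorem powSet_card (Y : Finset (PontryaginDual K)) (M : ℕ) :
    (powSet Y M).card ≤ (M + 1) ^ Y.card := by
  refine Finset.card_image_le.trans ?_
  simp

theorem powSet_nonempty (Y : Finset (PontryaginDual K)) (M : ℕ) : (powSet Y M).Nonempty :=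
  Finset.image_nonempty.mpr Finset.univ_nonempty

/-- The test trigonometric polynomial. -/
noncomputable def testPoly (F : Finset S) (Y : Finset (PontryaginDual K)) (M : ℕ) (x : K) : ℂ :=
  ∏ s : F, ∏ χ : Y, ∏ _i : Fin M, (1 + (((χ : PontryaginDual K) ((s : S) • x) : Circle) : ℂ)) / 2

theorem integral_testPoly [MeasurableSpace K] [BorelSpace K] (μ : Measure K) [μ.IsHaarMeasure]
    [IsProbabilityMeasure μ] (F : Finset S) (Y : Finset (PontryaginDual K)) (M : ℕ) :
    1 / ((traj F (powSet Y M)).ncard : ℝ) ≤ ∫ x, ‖testPoly F Y M x‖ ^ 2 ∂μ := by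
  let I := F × Y × Fin M
  let J := Finset I
  let v : J → PontryaginDual K := fun E => ∏ p ∈ E, dualAct (p.2.1 : PontryaginDual K) (p.1 : S)
  let c : J → ℝ := fun _ => (1 / 2) ^ (Fintype.card I)
  have hexp : ∀ x, testPoly F Y M x = ∑ E : J, (c E : ℂ) * ((v E x : Circle) : ℂ) := by
    intro x
    have h1 : testPoly F Y M x = ∏ p : I, (((1 / 2 : ℝ) : ℂ) *
        (((dualAct (p.2.1 : PontryaginDual K) (p.1 : S) x : Circle) : ℂ) + 1)) := by
      rw [testPoly, Fintype.prod_prod_type]
      refine Finset.prod_congr rfl fun s _ => ?_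
      rw [Fintype.prod_prod_type]
      refine Finset.prod_congr rfl fun χ _ => Finset.prod_congr rfl fun i _ => ?_
      rw [dualAct_apply]
      push_cast
      ring
    rw [h1, Finset.prod_mul_distrib, Finset.prod_add_one, Finset.mul_sum]
    rw [Finset.powerset_univ]
    refine Finset.sum_congr rfl fun E _ => ?_
    simp only [c, v]
    rw [char_prod_apply, Finset.prod_const, Finset.card_univ]
    push_cast
    rfl
  simp_rw [hexp]
  have hfin := (traj_finite_card F (powSet Y M)).1
  rw [Set.ncard_eq_toFinset_card _ hfin]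
  apply integral_normSq_ge μ hfin.toFinset v _ c
  · simp only [c, Finset.sum_const, Finset.card_univ, nsmul_eq_mul, J]
    rw [Fintype.card_finset]
    push_cast
    rw [← mul_pow]
    norm_num
  · intro E
    rw [Set.Finite.mem_toFinset]
    let k : F → Y → ℕ := fun s χ => (Finset.univ.filter (fun i : Fin M => (s, χ, i) ∈ E)).card
    have hk : ∀ s χ, k s χ < M + 1 := fun s χ => by
      have : k s χ ≤ Fintype.card (Fin M) := Finset.card_le_univ _
      simpa [Nat.lt_succ_iff] using this
    refine ⟨fun s => if hs : s ∈ F then ∏ χ : Y, (χ : PontryaginDual K) ^ (k ⟨s, hs⟩ χ) else 1,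
      ?_, ?_⟩
    · intro s hs
      beta_reduce
      rw [dif_pos hs]
      exact Finset.mem_image.mpr ⟨fun χ => ⟨k ⟨s, hs⟩ χ, hk _ _⟩, Finset.mem_univ _, rfl⟩
    · have h1 : v E = ∏ p : I, if p ∈ E then dualAct (p.2.1 : PontryaginDual K) (p.1 : S) else 1 := by
        simp only [v]
        rw [Finset.prod_ite_mem, Finset.univ_inter]
      rw [h1, Fintype.prod_prod_type, ← Finset.prod_coe_sort F]
      refine Finset.prod_congr rfl fun s _ => ?_
      beta_reduce
      rw [dif_pos s.2, Fintype.prod_prod_type]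
      have h2 : dualAct (∏ χ : Y, (χ : PontryaginDual K) ^ (k s χ)) (s : S) =
          ∏ χ : Y, (dualAct (χ : PontryaginDual K) (s : S)) ^ (k s χ) := by
        have := map_prod (dualHom (K := K) (s : S)) (fun χ : Y => (χ : PontryaginDual K) ^ (k s χ))
          Finset.univ
        simp only [map_pow] at this
        exact this
      rw [show (⟨(s : S), s.2⟩ : F) = s from rfl, h2]
      refine Finset.prod_congr rfl fun χ _ => ?_
      rw [← Finset.prod_filter]
      exact Finset.prod_const (dualAct (χ : PontryaginDual K) (s : S))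

end upper2

section upper3

variable {S K : Type*} [Monoid S] [CommGroup K] [TopologicalSpace K] [IsTopologicalGroup K]
  [CompactSpace K] [T2Space K] [MulDistribMulAction S K] [ContinuousConstSMul S K]

theorem normSq_testPoly_le (F : Finset S) (Y : Finset (PontryaginDual K)) (M : ℕ) {V : Set K}
    {θ : ℝ} (h0 : 0 < θ)
    (hY : ∀ x, x ∉ V → ∃ χ ∈ Y, ‖(1 + ((χ x : Circle) : ℂ)) / 2‖ ^ 2 ≤ θ) (x : K) :
    ‖testPoly F Y M x‖ ^ 2 ≤ (θ ^ M) ^ (F.filter (fun s => s • x ∉ V)).card := by
  have hle : ∀ z : Circle, ‖(1 + (z : ℂ)) / 2‖ ^ 2 ≤ 1 := fun z =>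
    pow_le_one₀ (norm_nonneg _) (norm_half_le z)
  rw [testPoly, norm_prod, ← Finset.prod_pow, ← Finset.prod_const, Finset.prod_filter,
    ← Finset.prod_coe_sort F]
  apply Finset.prod_le_prod
  · intro s _; positivity
  · intro s _
    rw [norm_prod, ← Finset.prod_pow]
    simp_rw [norm_prod, ← Finset.prod_pow, Finset.prod_const, Finset.card_univ, Fintype.card_fin]
    by_cases hs : (s : S) • x ∈ V
    · rw [if_neg (not_not.mpr hs)]
      exact Finset.prod_le_one (fun _ _ => by positivity)
        (fun ψ _ => pow_le_one₀ (by positivity) (hle _))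
    · rw [if_pos hs]
      obtain ⟨χ, hχ, hχθ⟩ := hY _ hs
      rw [← Finset.mul_prod_erase Finset.univ _ (Finset.mem_univ (⟨χ, hχ⟩ : Y))]
      calc (‖(1 + ((χ ((s : S) • x) : Circle) : ℂ)) / 2‖ ^ 2) ^ M *
          ∏ ψ ∈ Finset.univ.erase (⟨χ, hχ⟩ : Y),
            (‖(1 + (((ψ : PontryaginDual K) ((s : S) • x) : Circle) : ℂ)) / 2‖ ^ 2) ^ M
          ≤ θ ^ M * 1 := by
            apply mul_le_mul
            · exact pow_le_pow_left₀ (by positivity) hχθ M
            · exact Finset.prod_le_one (fun _ _ => by positivity)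
                (fun ψ _ => pow_le_one₀ (by positivity) (hle _))
            · exact Finset.prod_nonneg fun _ _ => by positivity
            · positivity
        _ = θ ^ M := mul_one _

/-- points whose orbit over `F` outside `G` stays in `V` -/
def goodSet (F : Finset S) (V : Set K) (G : Finset S) : Set K :=
  {x | ∀ s ∈ F, s ∉ G → s • x ∈ V}

theorem isOpen_goodSet (F : Finset S) {V : Set K} (hV : IsOpen V) (G : Finset S) :
    IsOpen (goodSet F V G) := by
  have : goodSet F V G = ⋂ s ∈ F.filter (fun s => s ∉ G), (fun x : K => s • x) ⁻¹' V := by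
    ext x
    simp only [goodSet, Set.mem_iInter, Finset.mem_filter, Set.mem_preimage, and_imp]
    rfl
  rw [this]
  exact isOpen_biInter_finset fun s _ => hV.preimage (continuous_const_smul s)

theorem measure_good [MeasurableSpace K] [BorelSpace K] (μ : Measure K) [μ.IsHaarMeasure]
    [IsProbabilityMeasure μ] (F : Finset S) (Y : Finset (PontryaginDual K))
    (M : ℕ) {V : Set K} (hV : IsOpen V) {θ : ℝ} (h0 : 0 < θ) (h1 : θ < 1)
    (hY : ∀ x, x ∉ V → ∃ χ ∈ Y, ‖(1 + ((χ x : Circle) : ℂ)) / 2‖ ^ 2 ≤ θ) {r : ℕ} (hr : 0 < r)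
    (hM : θ ^ M * (2 * ((M : ℝ) + 1) ^ Y.card) ^ r < 1) :
    1 / (2 * ((traj F (powSet Y M)).ncard : ℝ)) ≤
      ∑ G ∈ F.powerset.filter (fun G => G.card ≤ F.card / r), μ.real (goodSet F V G) := by
  set T : ℕ := (traj F (powSet Y M)).ncard with hT
  have hTpos : 0 < T := by
    rw [hT, Set.ncard_pos (traj_finite_card F _).1]
    obtain ⟨χ, hχ⟩ := powSet_nonempty Y M
    exact ⟨_, fun _ => χ, fun _ _ => hχ, rfl⟩
  have hT0 : (0 : ℝ) < T := by exact_mod_cast hTpos
  have hTle : (T : ℝ) ≤ (((M : ℝ) + 1) ^ Y.card) ^ F.card := by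
    have h2 : T ≤ ((M + 1) ^ Y.card) ^ F.card :=
      (traj_finite_card F _).2.trans (Nat.pow_le_pow_left (powSet_card Y M) _)
    exact_mod_cast h2
  set A : Set K := ⋃ G ∈ F.powerset.filter (fun G => G.card ≤ F.card / r), goodSet F V G with hA
  have hAo : IsOpen A := isOpen_biUnion fun G _ => isOpen_goodSet F hV G
  have hmem : ∀ x, (F.filter (fun s => s • x ∉ V)).card ≤ F.card / r → x ∈ A := by
    intro x hx
    rw [hA, Set.mem_iUnion₂]
    refine ⟨F.filter (fun s => s • x ∉ V), Finset.mem_filter.mpr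
      ⟨Finset.mem_powerset.mpr (Finset.filter_subset _ _), hx⟩, fun s hs hsG => ?_⟩
    by_contra hcon
    exact hsG (Finset.mem_filter.mpr ⟨hs, hcon⟩)
  have hpt : ∀ x, ‖testPoly F Y M x‖ ^ 2 ≤ A.indicator (fun _ => (1 : ℝ)) x + 1 / (2 * T) := by
    intro x
    have h2 := normSq_testPoly_le F Y M h0 hY x
    set b := (F.filter (fun s => s • x ∉ V)).card with hb
    have hθM : θ ^ M ≤ 1 := pow_le_one₀ h0.le h1.le
    by_cases hxA : x ∈ A
    · rw [Set.indicator_of_mem hxA]
      have h3 : (θ ^ M) ^ b ≤ 1 := pow_le_one₀ (by positivity) hθM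
      have : 0 < 1 / (2 * (T : ℝ)) := by positivity
      linarith
    · rw [Set.indicator_of_notMem hxA, zero_add]
      have hb1 : F.card / r < b := by
        by_contra hcon
        push Not at hcon
        exact hxA (hmem x hcon)
      have hb0 : b ≠ 0 := ((Nat.zero_le _).trans_lt hb1).ne'
      have h3 : F.card ≤ r * b := by
        calc F.card ≤ r * (F.card / r + 1) := (Nat.lt_mul_div_succ F.card hr).le
          _ ≤ r * b := Nat.mul_le_mul_left _ hb1
      set a : ℝ := ((M : ℝ) + 1) ^ Y.card with ha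
      have ha1 : 1 ≤ a := one_le_pow₀ (by
        have : (0 : ℝ) ≤ M := Nat.cast_nonneg _
        linarith)
      have hF0 : F.card ≠ 0 := by
        have : b ≤ F.card := Finset.card_filter_le _ _
        omega
      have h4 : (θ ^ M) ^ b * (2 * (T : ℝ)) ≤ 1 := by
        calc (θ ^ M) ^ b * (2 * (T : ℝ)) ≤ (θ ^ M) ^ b * (2 ^ F.card * a ^ F.card) := by
              gcongr
              exact le_self_pow₀ (by norm_num) hF0
          _ = (θ ^ M) ^ b * (2 * a) ^ F.card := by rw [mul_pow]
          _ ≤ (θ ^ M) ^ b * (2 * a) ^ (r * b) := by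
              gcongr
              linarith
          _ = (θ ^ M * (2 * a) ^ r) ^ b := by rw [pow_mul, ← mul_pow]
          _ ≤ 1 := pow_le_one₀ (by positivity) hM.le
      rw [le_div_iff₀ (by positivity)]
      calc ‖testPoly F Y M x‖ ^ 2 * (2 * (T : ℝ)) ≤ (θ ^ M) ^ b * (2 * (T : ℝ)) := by gcongr
        _ ≤ 1 := h4
  have hint : ∫ x, ‖testPoly F Y M x‖ ^ 2 ∂μ ≤ μ.real A + 1 / (2 * T) := by
    have hAint : Integrable (A.indicator (fun _ => (1 : ℝ))) μ :=
      (integrable_const (1 : ℝ)).indicator hAo.measurableSet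
    calc ∫ x, ‖testPoly F Y M x‖ ^ 2 ∂μ
        ≤ ∫ x, (A.indicator (fun _ => (1 : ℝ)) x + 1 / (2 * T)) ∂μ := by
          apply integral_mono_of_nonneg
          · exact Eventually.of_forall fun x => by positivity
          · exact hAint.add (integrable_const _)
          · exact Eventually.of_forall hpt
      _ = μ.real A + 1 / (2 * T) := by
          rw [integral_add hAint (integrable_const _), integral_indicator hAo.measurableSet]
          simp
  have h5 := integral_testPoly μ F Y M
  rw [← hT] at h5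
  have h6 : μ.real A ≤ ∑ G ∈ F.powerset.filter (fun G => G.card ≤ F.card / r),
      μ.real (goodSet F V G) := measureReal_biUnion_finset_le _ _
  have h7 : 1 / (T : ℝ) = 1 / (2 * T) + 1 / (2 * T) := by field_simp; norm_num
  linarith

end upper3

section upper4

variable {S K : Type*} [Monoid S] [CommGroup K] [TopologicalSpace K] [IsTopologicalGroup K]
  [CompactSpace K] [T2Space K] [MulDistribMulAction S K] [ContinuousConstSMul S K]

theorem exists_max_disjoint [MeasurableSpace K] [BorelSpace K] (μ : Measure K) [μ.IsHaarMeasure]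
    [IsProbabilityMeasure μ] {B : Set K} (hB : IsOpen B) (hBne : B.Nonempty) :
    ∃ t : Finset K, (t.card : ℝ) * μ.real B ≤ 1 ∧ ∀ y : K, ∃ x ∈ t, ∃ b ∈ B, ∃ b' ∈ B,
      y = x * b' * b⁻¹ := by
  have hβ : 0 < μ.real B := by
    rw [measureReal_def]
    exact ENNReal.toReal_pos (hB.measure_pos μ hBne).ne' (measure_ne_top μ B)
  let P : Finset K → Prop := fun t => (t : Set K).PairwiseDisjoint (fun x => x • B)
  have hcard : ∀ t, P t → (t.card : ℝ) * μ.real B ≤ 1 := by
    intro t ht
    have h1 : μ.real (⋃ x ∈ t, x • B) = ∑ x ∈ t, μ.real (x • B) :=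
      measureReal_biUnion_finset ht (fun x _ => (hB.smul x).measurableSet)
    have h2 : ∀ x : K, μ.real (x • B) = μ.real B := by
      intro x
      rw [measureReal_def, measureReal_def, measure_smul]
    simp_rw [h2, Finset.sum_const, nsmul_eq_mul] at h1
    rw [← h1]
    calc μ.real (⋃ x ∈ t, x • B) ≤ μ.real Set.univ := measureReal_mono (Set.subset_univ _)
      _ = 1 := by simp
  -- choose `t` of maximal cardinality
  let Q : ℕ → Prop := fun n => ∃ t : Finset K, P t ∧ t.card = n
  obtain ⟨N, hN⟩ := exists_nat_gt (1 / μ.real B)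
  have hbd : ∀ n, Q n → n ≤ N := by
    rintro n ⟨t, ht, rfl⟩
    have h1 := hcard t ht
    rw [← le_div_iff₀ hβ] at h1
    exact_mod_cast (h1.trans hN.le)
  have hQ0 : Q 0 := ⟨∅, by simp [P], rfl⟩
  obtain ⟨t, ht, htn⟩ : Q (Nat.findGreatest Q N) := Nat.findGreatest_spec (Nat.zero_le _) hQ0
  refine ⟨t, hcard t ht, fun y => ?_⟩
  by_cases hy : y ∈ t
  · obtain ⟨b, hb⟩ := hBne
    exact ⟨y, hy, b, hb, b, hb, by group⟩
  · by_contra hcon
    push Not at hcon
    have hins : P (insert y t) := by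
      simp only [P, Finset.coe_insert]
      apply ht.insert_of_notMem (by simpa using hy)
      intro x hx
      rw [Set.disjoint_left]
      rintro z ⟨b, hb, hbz⟩ ⟨b', hb', hbz'⟩
      simp only [smul_eq_mul] at hbz hbz'
      apply hcon x (by simpa using hx) b hb b' hb'
      rw [hbz', ← hbz]
      group
    have h1 : (insert y t).card ≤ Nat.findGreatest Q N :=
      Nat.le_findGreatest (hbd _ ⟨_, hins, rfl⟩) ⟨_, hins, rfl⟩
    rw [Finset.card_insert_of_notMem hy, htn] at h1
    omega

theorem cover_goodSet [MeasurableSpace K] [BorelSpace K] (μ : Measure K) [μ.IsHaarMeasure]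
    [IsProbabilityMeasure μ] (F : Finset S) (U : Finset (Set K)) {V : Set K} (hV : IsOpen V)
    (h1 : (1 : K) ∈ V) (hUV : ∀ x : K, ∃ u ∈ U, ∀ v ∈ V, ∀ w ∈ V, x * v * w⁻¹ ∈ u)
    (hUc : ⋃₀ (U : Set (Set K)) = Set.univ) (G : Finset S) :
    (coverNumber (joinCover F (U : Set (Set K))) : ℝ) * μ.real (goodSet F V G) ≤
      (U.card : ℝ) ^ G.card := by
  have hBne : (goodSet F V G).Nonempty := ⟨1, fun s _ _ => by rw [smul_one]; exact h1⟩
  obtain ⟨t, ht1, ht2⟩ := exists_max_disjoint μ (isOpen_goodSet F hV G) hBne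
  choose u hu huV using hUV
  let u' : t → (G → U) → S → Set K := fun x g s =>
    if hs : s ∈ G then (g ⟨s, hs⟩ : Set K) else u (s • (x : K))
  let W : t × (G → U) → Set K := fun p => ⋂ s ∈ F, (fun z => s • z) ⁻¹' (u' p.1 p.2 s)
  have hcov : coverNumber (joinCover F (U : Set (Set K))) ≤ Fintype.card (t × (G → U)) := by
    apply coverNumber_le W
    · rintro ⟨x, g⟩
      refine ⟨u' x g, fun s _ => ?_, rfl⟩
      by_cases hs : s ∈ G
      · simp only [u', dif_pos hs]; simp
      · simp only [u', dif_neg hs]; simpa using hu _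
    · intro y
      obtain ⟨x, hx, b, hb, b', hb', rfl⟩ := ht2 y
      have hg : ∀ s : G, ∃ u : U, (s : S) • (x * b' * b⁻¹) ∈ (u : Set K) := by
        intro s
        have : (s : S) • (x * b' * b⁻¹) ∈ ⋃₀ (U : Set (Set K)) := by rw [hUc]; trivial
        obtain ⟨u, hu, hxu⟩ := this
        exact ⟨⟨u, by simpa using hu⟩, hxu⟩
      choose g hg using hg
      refine ⟨(⟨x, hx⟩, g), ?_⟩
      simp only [W, Set.mem_iInter, Set.mem_preimage]
      intro s hs
      by_cases hsG : s ∈ G
      · simp only [u', dif_pos hsG]; exact hg ⟨s, hsG⟩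
      · simp only [u', dif_neg hsG]
        rw [smul_mul', smul_mul', smul_inv']
        exact huV _ _ (hb' s hs hsG) _ (hb s hs hsG)
  have hcard : (coverNumber (joinCover F (U : Set (Set K))) : ℝ) ≤ t.card * (U.card : ℝ) ^ G.card := by
    have : Fintype.card (t × (G → U)) = t.card * U.card ^ G.card := by simp
    rw [this] at hcov
    exact_mod_cast hcov
  calc (coverNumber (joinCover F (U : Set (Set K))) : ℝ) * μ.real (goodSet F V G)
      ≤ (t.card * (U.card : ℝ) ^ G.card) * μ.real (goodSet F V G) := by gcongr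
    _ = (t.card * μ.real (goodSet F V G)) * (U.card : ℝ) ^ G.card := by ring
    _ ≤ 1 * (U.card : ℝ) ^ G.card := by gcongr
    _ = (U.card : ℝ) ^ G.card := one_mul _

theorem card_small_subsets (F : Finset S) (k : ℕ) {t : ℝ} (ht : 0 < t) (ht1 : t ≤ 1) :
    ((F.powerset.filter (fun G => G.card ≤ k)).card : ℝ) ≤ (1 / t) ^ k * (1 + t) ^ F.card := by
  have h1 : ((F.powerset.filter (fun G => G.card ≤ k)).card : ℝ) * t ^ k ≤ (1 + t) ^ F.card := by
    have h2 := Finset.sum_pow_mul_eq_add_pow t 1 F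
    rw [add_comm 1 t, ← h2, ← nsmul_eq_mul, ← Finset.sum_const]
    refine le_trans (Finset.sum_le_sum (g := fun G => t ^ G.card * 1 ^ (F.card - G.card)) ?_)
      (Finset.sum_le_sum_of_subset_of_nonneg (Finset.filter_subset _ _)
        (fun m _ _ => by positivity))
    intro G hG
    rw [one_pow, mul_one]
    exact pow_le_pow_of_le_one ht.le ht1 (Finset.mem_filter.mp hG).2
  rw [one_div, inv_pow, ← div_eq_inv_mul, le_div_iff₀ (by positivity)]
  exact h1

/-- The upper bound: algebraic entropy dominates topological entropy, for each finite `F`. -/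
theorem upper_bound (U : Finset (Set K)) (hUo : ∀ u ∈ U, IsOpen u)
    (hUc : ⋃₀ (U : Set (Set K)) = Set.univ) {δ : ℝ} (hδ : 0 < δ) :
    ∃ X : Finset (PontryaginDual K), X.Nonempty ∧ ∀ F : Finset S,
      Real.log (coverNumber (joinCover F (U : Set (Set K)))) ≤
        Real.log 2 + Real.log ((traj F X).ncard) + δ * F.card := by
  let _ : MeasurableSpace K := borel K
  have : BorelSpace K := ⟨rfl⟩
  let μ : Measure K := Measure.haarMeasure ⊤
  have : IsProbabilityMeasure μ := haar_prob
  have hUpos : 0 < U.card := by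
    rw [Finset.card_pos]
    have : (1 : K) ∈ ⋃₀ (U : Set (Set K)) := by rw [hUc]; trivial
    obtain ⟨u, hu, _⟩ := this
    exact ⟨u, by simpa using hu⟩
  have hU1 : (1 : ℝ) ≤ U.card := by exact_mod_cast hUpos
  obtain ⟨V, hVo, hV1, hUV⟩ := exists_small_nhd U hUo hUc
  obtain ⟨Y, θ, hθ0, hθ1, hY⟩ := exists_test hVo hV1
  set t : ℝ := min 1 (δ / 2) with ht
  have ht0 : 0 < t := by positivity
  have ht1 : t ≤ 1 := min_le_left _ _
  have ht2 : t ≤ δ / 2 := min_le_right _ _
  obtain ⟨r, hr⟩ := exists_nat_gt (max 0 (2 * Real.log (U.card / t) / δ))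
  have hr0 : 0 < r := by
    have : (0 : ℝ) < r := lt_of_le_of_lt (le_max_left _ _) hr
    exact_mod_cast this
  have hr1 : Real.log (U.card / t) / r ≤ δ / 2 := by
    have h1 : 2 * Real.log (U.card / t) / δ < r := lt_of_le_of_lt (le_max_right _ _) hr
    rw [div_lt_iff₀ hδ] at h1
    rw [div_le_iff₀ (by exact_mod_cast hr0)]
    linarith
  obtain ⟨M, hM⟩ := exists_power hθ0 hθ1 Y.card r
  refine ⟨powSet Y M, powSet_nonempty Y M, fun F => ?_⟩
  have hgood := measure_good μ F Y M hVo hθ0 hθ1 hY hr0 hM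
  set T : ℕ := (traj F (powSet Y M)).ncard with hT
  have hTpos : 0 < T := by
    rw [hT, Set.ncard_pos (traj_finite_card F _).1]
    obtain ⟨χ, hχ⟩ := powSet_nonempty Y M
    exact ⟨_, fun _ => χ, fun _ _ => hχ, rfl⟩
  have hT0 : (0 : ℝ) < T := by exact_mod_cast hTpos
  set N : ℕ := coverNumber (joinCover F (U : Set (Set K))) with hN
  have hNle : (N : ℝ) ≤ 2 * T * (((U.card : ℝ) / t) ^ (F.card / r) * (1 + t) ^ F.card) := by
    have h1 : (N : ℝ) * (1 / (2 * (T : ℝ))) ≤
        ∑ G ∈ F.powerset.filter (fun G => G.card ≤ F.card / r), (U.card : ℝ) ^ (F.card / r) := by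
      calc (N : ℝ) * (1 / (2 * (T : ℝ))) ≤ N *
            ∑ G ∈ F.powerset.filter (fun G => G.card ≤ F.card / r), μ.real (goodSet F V G) := by
            gcongr
        _ = ∑ G ∈ F.powerset.filter (fun G => G.card ≤ F.card / r),
              N * μ.real (goodSet F V G) := Finset.mul_sum _ _ _
        _ ≤ _ := by
            refine Finset.sum_le_sum fun G hG => ?_
            refine (cover_goodSet μ F U hVo hV1 hUV hUc G).trans ?_
            exact pow_le_pow_right₀ hU1 (Finset.mem_filter.mp hG).2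
    rw [Finset.sum_const, nsmul_eq_mul] at h1
    have h2 := card_small_subsets F (F.card / r) ht0 ht1
    have h3 : (N : ℝ) * (1 / (2 * (T : ℝ))) ≤
        (1 / t) ^ (F.card / r) * (1 + t) ^ F.card * (U.card : ℝ) ^ (F.card / r) :=
      h1.trans (by gcongr)
    calc (N : ℝ) = (N : ℝ) * (1 / (2 * (T : ℝ))) * (2 * T) := by field_simp
      _ ≤ ((1 / t) ^ (F.card / r) * (1 + t) ^ F.card * (U.card : ℝ) ^ (F.card / r)) * (2 * T) := by
          gcongr
      _ = 2 * T * (((U.card : ℝ) / t) ^ (F.card / r) * (1 + t) ^ F.card) := by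
          rw [div_pow, div_pow, one_pow]; ring
  rcases Nat.eq_zero_or_pos N with hN0 | hNpos
  · rw [hN0, Nat.cast_zero, Real.log_zero]
    have h1 : 0 ≤ Real.log 2 := Real.log_nonneg (by norm_num)
    have h2 : 0 ≤ Real.log T := Real.log_nonneg (by exact_mod_cast hTpos)
    positivity
  · have hN1 : (0 : ℝ) < N := by exact_mod_cast hNpos
    have h1 := Real.log_le_log hN1 hNle
    rw [Real.log_mul (by positivity) (by positivity), Real.log_mul (by positivity) (by positivity),
      Real.log_mul (by positivity) (by positivity), Real.log_pow, Real.log_pow] at h1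
    have h3 : Real.log (1 + t) ≤ δ / 2 := by
      have := Real.log_le_sub_one_of_pos (show (0 : ℝ) < 1 + t by positivity)
      linarith
    have h4 : ((F.card / r : ℕ) : ℝ) * Real.log (U.card / t) ≤ F.card * (δ / 2) := by
      have hlog : 0 ≤ Real.log (U.card / t) :=
        Real.log_nonneg (by rw [le_div_iff₀ ht0]; linarith)
      calc ((F.card / r : ℕ) : ℝ) * Real.log (U.card / t)
          ≤ ((F.card : ℝ) / r) * Real.log (U.card / t) := by
            gcongr
            exact Nat.cast_div_le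
        _ = F.card * (Real.log (U.card / t) / r) := by ring
        _ ≤ F.card * (δ / 2) := by gcongr
    have h5 : (F.card : ℝ) * Real.log (1 + t) ≤ F.card * (δ / 2) := by gcongr
    linarith

end upper4

section finiteDual

variable {K : Type*} [CommGroup K] [TopologicalSpace K] [IsTopologicalGroup K]
  [CompactSpace K] [T2Space K]

theorem card_le_of_finite_dual [Fintype (PontryaginDual K)] (A : Finset K) :
    A.card ≤ Fintype.card (PontryaginDual K) := by
  let _ : MeasurableSpace K := borel K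
  have : BorelSpace K := ⟨rfl⟩
  let μ : Measure K := Measure.haarMeasure ⊤
  have : IsProbabilityMeasure μ := haar_prob
  set D := Fintype.card (PontryaginDual K) with hD
  have hD0 : (0 : ℝ) < D := by exact_mod_cast Fintype.card_pos
  let q : K → ℂ := fun x => ∑ χ : PontryaginDual K, ((χ x : Circle) : ℂ)
  have hq1 : q 1 = D := by simp [q, hD]
  have hq0 : ∀ x, x ≠ 1 → q x = 0 := by
    intro x hx
    obtain ⟨χ₀, hχ₀⟩ := exists_char_ne_one hx
    have h1 : ((χ₀ x : Circle) : ℂ) * q x = q x := by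
      simp only [q]
      rw [Finset.mul_sum]
      exact Fintype.sum_equiv (Equiv.mulLeft χ₀) _ _ (fun χ => rfl)
    have h2 : (((χ₀ x : Circle) : ℂ) - 1) * q x = 0 := by rw [sub_mul, h1, one_mul, sub_self]
    rcases mul_eq_zero.mp h2 with h | h
    · exfalso
      apply hχ₀
      ext
      rw [sub_eq_zero] at h
      rw [h]; rfl
    · exact h
  have hint : ∫ x, q x ∂μ = 1 := by
    simp only [q]
    rw [integral_finsetSum _ (fun χ _ => integrable_of_continuous μ (continuous_char χ))]
    rw [Finset.sum_eq_single 1]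
    · simp
    · intro χ _ hχ
      exact integral_char_eq_zero μ χ hχ
    · intro h; exact absurd (Finset.mem_univ _) h
  have hind : q = ({1} : Set K).indicator (fun _ => (D : ℂ)) := by
    ext x
    by_cases hx : x = 1
    · rw [hx, hq1, Set.indicator_of_mem (Set.mem_singleton _)]
    · rw [hq0 x hx, Set.indicator_of_notMem (by simpa using hx)]
  rw [hind, integral_indicator (isClosed_singleton.measurableSet)] at hint
  have h1 : μ.real {1} * D = 1 := by
    rw [setIntegral_const] at hint
    have : ((μ.real {1} * D : ℝ) : ℂ) = 1 := by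
      rw [← hint]; push_cast; rw [Complex.real_smul]
    exact_mod_cast this
  have h2 : ∀ x : K, μ.real {x} = μ.real {1} := by
    intro x
    have : ({x} : Set K) = x • ({1} : Set K) := by simp
    rw [this, measureReal_def, measureReal_def, measure_smul]
  have h3 : μ.real (A : Set K) = ∑ x ∈ A, μ.real {x} := by
    have h := measureReal_biUnion_finset (μ := μ) (s := A) (f := fun x => ({x} : Set K))
      (fun x _ y _ hxy => by simpa [Function.onFun] using hxy)
      (fun x _ => isClosed_singleton.measurableSet)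
    rw [← h]
    congr 1
    ext x; simp
  simp_rw [h2, Finset.sum_const, nsmul_eq_mul] at h3
  have h4 : μ.real (A : Set K) ≤ 1 := by
    calc μ.real (A : Set K) ≤ μ.real Set.univ := measureReal_mono (Set.subset_univ _)
      _ = 1 := by simp
  have h5 : (A.card : ℝ) ≤ D := by
    calc (A.card : ℝ) = A.card * (μ.real {1} * D) := by rw [h1, mul_one]
      _ = (A.card * μ.real {1}) * D := by ring
      _ ≤ 1 * D := by rw [← h3]; gcongr
      _ = D := one_mul _
  exact_mod_cast h5

variable {S : Type*} [Monoid S] [MulDistribMulAction S K] [ContinuousConstSMul S K]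

theorem card_le_traj (F : Finset S) (h1 : (1 : S) ∈ F) (X : Finset (PontryaginDual K)) :
    X.card ≤ (traj F X).ncard := by
  rcases X.eq_empty_or_nonempty with rfl | ⟨χ₀, hχ₀⟩
  · simp
  let c : PontryaginDual K → S → PontryaginDual K := fun χ s => if s = 1 then χ else χ₀
  let g : PontryaginDual K → PontryaginDual K := fun χ => ∏ s ∈ F, dualAct (c χ s) s
  have hg : ∀ χ, g χ = χ * ∏ s ∈ F.erase 1, dualAct χ₀ s := by
    intro χ
    simp only [g]
    rw [← Finset.mul_prod_erase F _ h1]
    congr 1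
    · simp only [c, if_true]
      apply PontryaginDual.ext
      intro x
      rw [dualAct_apply, one_smul]
    · refine Finset.prod_congr rfl fun s hs => ?_
      simp only [c, if_neg (Finset.ne_of_mem_erase hs)]
  have hinj : Function.Injective g := by
    intro χ ψ h
    rw [hg, hg] at h
    exact mul_right_cancel h
  rw [← Set.ncard_coe_finset, ← Set.ncard_image_of_injective _ hinj]
  apply Set.ncard_le_ncard _ (traj_finite_card F X).1
  rintro _ ⟨χ, hχ, rfl⟩
  refine ⟨c χ, fun s _ => ?_, rfl⟩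
  simp only [c]
  split_ifs
  · exact hχ
  · exact hχ₀

theorem finite_case (F : Finset S) (h1 : (1 : S) ∈ F) (U : Finset (Set K))
    (hUc : ⋃₀ (U : Set (Set K)) = Set.univ) :
    ∃ X : Finset (PontryaginDual K), X.Nonempty ∧
      coverNumber (joinCover F (U : Set (Set K))) ≤ (traj F X).ncard := by
  rcases finite_or_infinite (PontryaginDual K) with hfin | hinf
  · have := Fintype.ofFinite (PontryaginDual K)
    refine ⟨Finset.univ, Finset.univ_nonempty, ?_⟩
    have hKfin : Finite K := by
      by_contra h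
      rw [not_finite_iff_infinite] at h
      obtain ⟨A, hA⟩ := Infinite.exists_subset_card_eq K (Fintype.card (PontryaginDual K) + 1)
      have := card_le_of_finite_dual A
      omega
    have := Fintype.ofFinite K
    have h2 := card_le_of_finite_dual (Finset.univ : Finset K)
    have h3 := card_le_traj F h1 (Finset.univ : Finset (PontryaginDual K))
    have h4 : coverNumber (joinCover F (U : Set (Set K))) ≤ Fintype.card K := by
      have hex : ∀ x : K, ∃ W ∈ joinCover F (U : Set (Set K)), x ∈ W := by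
        intro x
        have : x ∈ ⋃₀ joinCover F (U : Set (Set K)) := by
          rw [joinCover_cover F _ hUc]; trivial
        simpa using this
      choose W hW hxW using hex
      exact coverNumber_le W hW (fun x => ⟨x, hxW x⟩)
    exact h4.trans (h2.trans h3)
  · obtain ⟨X, hX⟩ := Infinite.exists_subset_card_eq (PontryaginDual K)
      (coverNumber (joinCover F (U : Set (Set K))) + 1)
    refine ⟨X, ?_, ?_⟩
    · rw [← Finset.card_pos]; omega
    · have := card_le_traj F h1 X
      omega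

end finiteDual

end Pool.Agent.Results.MP_699bc8_an.BridgeTheorem
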