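import Mathlib
import Pool.Agent.Lib.BridgeTheorem.Upper

/-!
# Bridge Theorem: Følner nets and passage to the limit
-/

set_option linter.unusedSectionVars false

open MeasureTheory Filter Topology
open scoped ENNReal ComplexConjugate Classical Pointwise
open Pool.Agent.Lib.CompactAbelian

namespace Pool.Agent.Results.MP_699bc8_an.BridgeTheorem

section folner

variable {S ι : Type*} {l : Filter ι} {F : ι → Finset S}

theorem IsLeftFolner.card_le [CancelMonoid S] (hF : IsLeftFolner l F) (A : Finset S) :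
    ∀ᶠ i in l, A.card ≤ (F i).card := by
  have hA : ∀ᶠ i in l, ∀ s ∈ A,
      ((((fun t => s * t) '' (F i : Set S)) \ (F i : Set S)).ncard : ℝ) / (F i).card <
        1 / (A.card + 1) := by
    rw [Filter.eventually_all_finset]
    intro s _
    exact (hF.tendsto s).eventually (gt_mem_nhds (by positivity))
  filter_upwards [hA] with i hi
  by_contra hlt
  push Not at hlt
  obtain ⟨f, hf⟩ := hF.nonempty i
  have hcard : 0 < ((F i).card : ℝ) := by exact_mod_cast Finset.card_pos.mpr ⟨f, hf⟩
  have hsub : ∀ s ∈ A, s * f ∈ F i := by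
    intro s hs
    have h1 := hi s hs
    rw [div_lt_iff₀ hcard] at h1
    have h2 : ((((fun t => s * t) '' (F i : Set S)) \ (F i : Set S)).ncard : ℝ) < 1 := by
      refine h1.trans_le ?_
      rw [div_mul_eq_mul_div, one_mul, div_le_one (by positivity)]
      have : ((F i).card : ℝ) < A.card := by exact_mod_cast hlt
      linarith
    have h3 : (((fun t => s * t) '' (F i : Set S)) \ (F i : Set S)).ncard = 0 := by
      have : (((fun t => s * t) '' (F i : Set S)) \ (F i : Set S)).ncard < 1 := by exact_mod_cast h2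
      omega
    have hfin : (((fun t => s * t) '' (F i : Set S)) \ (F i : Set S)).Finite :=
      ((F i).finite_toSet.image _).sdiff
    rw [Set.ncard_eq_zero hfin, Set.sdiff_eq_empty] at h3
    exact h3 ⟨f, hf, rfl⟩
  have : A.card ≤ (F i).card :=
    Finset.card_le_card_of_injOn (fun s => s * f) hsub (fun a _ b _ hab => mul_right_cancel hab)
  omega

end folner

section lim

variable {ι : Type*} {l : Filter ι}

theorem limsup_le_aux (c : EReal) (a : ι → ℝ)
    (h : ∀ δ : ℝ, 0 < δ → ∃ b : ι → ℝ, limsup (fun i => (b i : EReal)) l ≤ c ∧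
      ∀ᶠ i in l, a i ≤ b i + δ) : limsup (fun i => (a i : EReal)) l ≤ c := by
  apply le_of_forall_gt_imp_ge_of_dense
  intro c' hc'
  obtain ⟨p, hp1, hp2⟩ := EReal.lt_iff_exists_real_btwn.mp hc'
  obtain ⟨p', hp'1, hp'2⟩ := EReal.lt_iff_exists_real_btwn.mp hp2
  have hpp : p < p' := by exact_mod_cast hp'1
  obtain ⟨b, hb, hab⟩ := h (p' - p) (sub_pos.mpr hpp)
  have hev : ∀ᶠ i in l, (b i : EReal) < p := eventually_lt_of_limsup_lt (hb.trans_lt hp1)
  refine (limsup_le_of_le (f := l) ?_ ?_ : _ ≤ (p' : EReal)).trans hp'2.le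
  · isBoundedDefault
  · filter_upwards [hev, hab] with i h1 h2
    have h3 : b i < p := by exact_mod_cast h1
    exact_mod_cast (by linarith : a i ≤ p')

theorem liminf_le_aux (c : EReal) (a : ι → ℝ)
    (h : ∀ δ : ℝ, 0 < δ → ∃ b : ι → ℝ, liminf (fun i => (b i : EReal)) l ≤ c ∧
      ∀ᶠ i in l, a i ≤ b i + δ) : liminf (fun i => (a i : EReal)) l ≤ c := by
  apply le_of_forall_gt_imp_ge_of_dense
  intro c' hc'
  obtain ⟨p, hp1, hp2⟩ := EReal.lt_iff_exists_real_btwn.mp hc'
  obtain ⟨p', hp'1, hp'2⟩ := EReal.lt_iff_exists_real_btwn.mp hp2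
  have hpp : p < p' := by exact_mod_cast hp'1
  obtain ⟨b, hb, hab⟩ := h (p' - p) (sub_pos.mpr hpp)
  have hev : ∃ᶠ i in l, (b i : EReal) < p := frequently_lt_of_liminf_lt (by isBoundedDefault) (hb.trans_lt hp1)
  refine (liminf_le_of_frequently_le (f := l) ?_ : _ ≤ (p' : EReal)).trans hp'2.le
  refine (hev.and_eventually hab).mono fun i hi => ?_
  have h3 : b i < p := by exact_mod_cast hi.1
  exact_mod_cast (by linarith [hi.2] : a i ≤ p')

end lim

section main

variable {S K ι : Type*} [CancelMonoid S] [CommGroup K] [TopologicalSpace K]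
  [IsTopologicalGroup K] [CompactSpace K] [T2Space K] [MulDistribMulAction S K]
  [ContinuousConstSMul S K]

theorem alg_le_top {l : Filter ι} {F : ι → Finset S} (hF : IsLeftFolner l F)
    (X : Finset (PontryaginDual K)) (hX : X.Nonempty) {δ : ℝ} (hδ : 0 < δ) :
    ∃ U : Finset (Set K), IsOpenCover U ∧ ∀ i, algRate (F i) X ≤ topRate (F i) U + δ := by
  obtain ⟨U, hUo, hUc, hU⟩ := lower_bound (S := S) X hX hδ
  refine ⟨U, ⟨hUo, hUc⟩, fun i => ?_⟩
  have hc : 0 < ((F i).card : ℝ) := by exact_mod_cast (hF.nonempty i).card_pos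
  rw [algRate, topRate, div_add' _ _ _ hc.ne']
  gcongr
  exact hU (F i) (hF.nonempty i)

theorem top_le_alg {l : Filter ι} {F : ι → Finset S} (hF : IsLeftFolner l F)
    (U : Finset (Set K)) (hU : IsOpenCover U) {δ : ℝ} (hδ : 0 < δ) :
    ∃ X : Finset (PontryaginDual K), X.Nonempty ∧
      ∀ᶠ i in l, topRate (F i) U ≤ algRate (F i) X + δ := by
  rcases finite_or_infinite S with hfin | hinf
  · have := Fintype.ofFinite S
    obtain ⟨X, hX, hle⟩ := finite_case (Finset.univ : Finset S) (Finset.mem_univ 1) U hU.2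
    refine ⟨X, hX, ?_⟩
    filter_upwards [hF.card_le Finset.univ] with i hi
    have hFi : F i = Finset.univ := by
      rw [← Finset.card_eq_iff_eq_univ]
      exact le_antisymm (Finset.card_le_univ _) hi
    rw [hFi, topRate, algRate]
    have h1 : Real.log (coverNumber (joinCover (Finset.univ : Finset S) (U : Set (Set K)))) ≤
        Real.log ((traj (Finset.univ : Finset S) X).ncard) := by
      rcases Nat.eq_zero_or_pos
        (coverNumber (joinCover (Finset.univ : Finset S) (U : Set (Set K)))) with h0 | hpos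
      · rw [h0, Nat.cast_zero, Real.log_zero]
        exact Real.log_natCast_nonneg _
      · exact Real.log_le_log (by exact_mod_cast hpos) (by exact_mod_cast hle)
    have h2 : Real.log (coverNumber (joinCover (Finset.univ : Finset S) (U : Set (Set K)))) /
        ((Finset.univ : Finset S).card : ℝ) ≤ Real.log ((traj (Finset.univ : Finset S) X).ncard) /
        ((Finset.univ : Finset S).card : ℝ) := by gcongr
    linarith
  · obtain ⟨X, hX, hle⟩ := upper_bound (S := S) U hU.1 hU.2 (half_pos hδ)
    refine ⟨X, hX, ?_⟩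
    obtain ⟨n, hn⟩ := exists_nat_gt (2 * Real.log 2 / δ)
    obtain ⟨A, hA⟩ := Infinite.exists_subset_card_eq S n
    filter_upwards [hF.card_le A] with i hi
    have hc : 0 < ((F i).card : ℝ) := by exact_mod_cast (hF.nonempty i).card_pos
    have h1 : 2 * Real.log 2 / δ ≤ (F i).card := by
      have : (A.card : ℝ) ≤ (F i).card := by exact_mod_cast hi
      rw [hA] at this
      linarith
    rw [div_le_iff₀ hδ] at h1
    rw [algRate, topRate, div_add' _ _ _ hc.ne']
    gcongr
    have := hle (F i)
    linarith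

end main

end Pool.Agent.Results.MP_699bc8_an.BridgeTheorem
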